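import Pool.Agent.Helper30.Pak.L6

/-! MP_005844_an, piece L (Lattes). -/

namespace Pool.Agent.Helper63.Pak

open IntermediateField Polynomial LPiece

variable {Ω : Type} [Field Ω] [Algebra ℂ Ω] [CurveUniverse Ω]
variable {A B : RatFunc ℂ} {x x' y : ℤ → Ω} {R : IntermediateField ℂ Ω}

theorem lattes_of_orbifold (hPT : PTFacts Ω) (hA : 2 ≤ rdeg A) (nu : OnePoint ℂ → ℕ)
    (hpos : ∀ q, 0 < nu q) (hfin : {q | nu q ≠ 1}.Finite)
    (hchi : ∑ᶠ q, (1 - 1 / (nu q : ℚ)) = 2)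
    (hcov : ∀ q, locDeg A q * nu q = nu (pmap A q)) : LattesIn Ω A := by
  obtain ⟨l, Sf, D⟩ := LPiece.exists_PData nu hpos hfin hchi
  obtain ⟨t, ht⟩ := exists_trans Ω
  obtain ⟨η, g, hη0, hη, hgx, hgE⟩ := LPiece.radical hPT hA D hcov ht
  have hx1E : t ∈ ℂ⟮t⟯ ⊔ ℂ⟮η⟯ := (le_sup_left : ℂ⟮t⟯ ≤ _) (mem_adjoin_simple_self ℂ _)
  have hEFF : FF (ℂ⟮t⟯ ⊔ ℂ⟮η⟯) := (ff_adjoin ht).sup_adjoin η
  exact ⟨_, hEFF, chi_eq_zero_of_orbifold hPT ht hEFF le_sup_left hpos hfin hchi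
      (fun v => D.e_eq hPT ht hη v), g, hgE, t, hx1E, ht, hgx⟩

theorem OrbLattes.lattesIn (hPT : PTFacts Ω) (hA : 2 ≤ rdeg A) (h : OrbLattes A) :
    LattesIn Ω A := by
  obtain ⟨nu, hpos, hfin, hchi, hcov⟩ := h
  exact lattes_of_orbifold hPT hA nu hpos hfin hchi hcov

theorem GS.orbLattes (hPT : PTFacts Ω) (hA : 2 ≤ rdeg A) (hx : Tower A x)
    (hR : IsSmallField x R) {N : ℤ} {K : IntermediateField ℂ Ω} (h : GS x R N K)
    (h0 : chi K = 0) : OrbLattes A := by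
  have hA1 : 1 ≤ rdeg A := le_trans (by norm_num) hA
  have hxR : ∀ n, x n ∈ R := hR.tower_mem hPT hA hx
  have hCR : ∀ n, Cx x n ≤ R := fun n => adjoin_simple_le_iff.2 (hxR n)
  obtain ⟨σ, hσ⟩ := exists_shift hA1 hx
  -- the fields
  have hK : FF K := h.ff hx
  have h1 := h.up hPT hA hx hxR 1
  have hN1 : N + ((1 : ℕ) : ℤ) = N + 1 := by norm_num
  rw [hN1] at h1
  set K' := K ⊔ Cx x (N + 1) with hK'
  have hK'F : FF K' := h1.ff hx
  obtain ⟨h2, h2o⟩ := h.map_shift hPT hA hx hR hσ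
  set L := mapF σ K with hL
  have hLF : FF L := h2.ff hx
  have hKK' : K ≤ K' := le_sup_left
  have hK'F' : 0 ≤ chi K' := hR.chi_nonneg hPT hA hx hK'F h1.leR
  -- unramified
  have hunr : ∀ {M M' : IntermediateField ℂ Ω}, FF M → FF M' → M ≤ M' → chi M = 0 → M' ≤ R →
      chi M' = 0 ∧ ∀ v, e v M M' = 1 := by
    intro M M' hM hM' hle hc hM'R
    have e1 := hPT.chi_eq hM hM' hle
    have e2 := hR.chi_nonneg hPT hA hx hM' hM'R
    rw [hc, mul_zero, zero_sub] at e1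
    have e3 : Ram M M' = 0 := by
      have : (0 : ℤ) ≤ Ram M M' := Int.natCast_nonneg _
      have : (Ram M M' : ℤ) = 0 := by linarith
      exact_mod_cast this
    refine ⟨by rw [e1, e3]; simp, fun v => ?_⟩
    -- total ramification zero
    have hfinR : (Function.support fun P : Pl M' => e P.pt M M' - 1).Finite := by
      refine (hPT.finite_ram hM hM' hle).subset ?_
      intro P hP h'
      rw [Function.mem_support, h'] at hP
      exact hP rfl
    have e4 : ∀ P : Pl M', e P.pt M M' - 1 = 0 := by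
      intro P
      by_contra hne
      have h5 : P ∈ hfinR.toFinset := by
        rw [hfinR.mem_toFinset]; exact hne
      have h6 : ∑ᶠ P : Pl M', (e P.pt M M' - 1) = ∑ P ∈ hfinR.toFinset, (e P.pt M M' - 1) :=
        finsum_eq_sum_of_support_subset _ (by rw [hfinR.coe_toFinset])
      rw [Ram, h6] at e3
      exact hne ((Finset.sum_eq_zero_iff.1 e3) P h5)
    have h7 := e4 (Pl.mk M' v)
    have h8 : e (Pl.mk M' v).pt M M' = e v M M' :=
      hPT.e_congr hM hM' hle (Pl.sameOn_pt_mk M' v)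
    rw [h8] at h7
    have h9 := hPT.e_pos v hM hM' hle
    omega
  obtain ⟨hcK', heK'⟩ := hunr hK hK'F hKK' h0 h1.leR
  have hcL : chi L = 0 := by rw [hL, hPT.chi_map σ hK, h0]
  set M := K' ⊔ L with hM
  have hMF : FF M := hK'F.sup hLF
  have hMR : M ≤ R := sup_le h1.leR h2.leR
  obtain ⟨_, he1⟩ := hunr hK'F hMF le_sup_left hcK' hMR
  obtain ⟨_, he2⟩ := hunr hLF hMF le_sup_right hcL hMR
  -- equality of the orbifolds
  have horb : ∀ q, orb x (N + 1) K' q = orb x N K q := by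
    intro q
    obtain ⟨v, hv⟩ := hPT.exists_val (hx.trans (N + 1)) q
    have a1 := h1.e_eq_orb hPT hx v
    have a2 := h2.e_eq_orb hPT hx v
    have a3 : e v (Cx x (N + 1)) M = e v (Cx x (N + 1)) K' * e v K' M :=
      e_mul v h1.le le_sup_left
    have a4 : e v (Cx x (N + 1)) M = e v (Cx x (N + 1)) L * e v L M :=
      e_mul v h2.le le_sup_right
    rw [he1, mul_one] at a3
    rw [he2, mul_one] at a4
    rw [hv] at a1 a2
    rw [← a1, ← a3, a4, a2, h2o]
  refine ⟨orb x N K, h.orb_pos hPT hx, h.orb_finite hPT hx, ?_, ?_⟩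
  · have b1 := h.chi_eq hPT hx
    rw [h0] at b1
    have b2 : ((Cx x N).relfinrank K : ℚ) ≠ 0 := by
      exact_mod_cast (hPT.relfinrank_pos (hx.ff N) hK h.le).ne'
    have b3 : (2 - ∑ᶠ q, (1 - 1 / (orb x N K q : ℚ))) = 0 := by
      rcases mul_eq_zero.1 (show ((Cx x N).relfinrank K : ℚ) *
        (2 - ∑ᶠ q, (1 - 1 / (orb x N K q : ℚ))) = 0 by rw [← b1]; simp) with b | b
      · exact absurd b b2
      · exact b
    linarith
  · intro q
    obtain ⟨v, hv⟩ := hPT.exists_val (hx.trans (N + 1)) q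
    have hle1 : Cx x N ≤ Cx x (N + 1) := by
      have := hx.le N 1
      rwa [hN1] at this
    have c1 : e v (Cx x N) K' = e v (Cx x N) K := by
      rw [e_mul v h.le hKK', heK', mul_one]
    have c2 : e v (Cx x N) K' = e v (Cx x N) (Cx x (N + 1)) * e v (Cx x (N + 1)) K' :=
      e_mul v hle1 h1.le
    have c3 : e v (Cx x N) (Cx x (N + 1)) = locDeg A q := by
      have := hPT.e_ev v A (hx.trans (N + 1)) hA1
      rw [hx.step N, hv] at this
      exact this
    have c4 : val v (x N) = pmap A q := by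
      have := hPT.val_ev v A (hx.trans (N + 1))
      rw [hx.step N, hv] at this
      exact this
    rw [← c4, ← h.e_eq_orb hPT hx v, ← c1, c2, c3, h1.e_eq_orb hPT hx v, hv, horb]

theorem GS.lattes (hPT : PTFacts Ω) (hA : 2 ≤ rdeg A) (hx : Tower A x)
    (hR : IsSmallField x R) {N : ℤ} {K : IntermediateField ℂ Ω} (h : GS x R N K)
    (h0 : chi K = 0) : LattesIn Ω A :=
  (h.orbLattes hPT hA hx hR h0).lattesIn hPT hA

theorem IsSmallField.chi_pos_orb (hPT : PTFacts Ω) (hA : 2 ≤ rdeg A) (hx : Tower A x)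
    (hR : IsSmallField x R) (hL : ¬ OrbLattes A) {K : IntermediateField ℂ Ω} (hK : FF K)
    (h : K ≤ R) : 0 < chi K := by
  obtain ⟨N₀, hN₀⟩ := hR.exists_GS hPT hA hx hK.1 h
  obtain ⟨K'', hGS, hle⟩ := hN₀ N₀ le_rfl
  have hF : FF K'' := hGS.ff hx
  have h1 := hR.chi_nonneg hPT hA hx hF hGS.leR
  have h2 : chi K'' ≠ 0 := fun h0 => hL (hGS.orbLattes hPT hA hx hR h0)
  exact chi_pos_of_le hPT hK hF hle (lt_of_le_of_ne h1 (Ne.symm h2))

theorem IsSmallField.chi_pos (hPT : PTFacts Ω) (hA : 2 ≤ rdeg A) (hx : Tower A x)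
    (hR : IsSmallField x R) (hL : ¬ LattesIn Ω A) {K : IntermediateField ℂ Ω} (hK : FF K)
    (h : K ≤ R) : 0 < chi K :=
  hR.chi_pos_orb hPT hA hx (fun h' => hL (h'.lattesIn hPT hA)) hK h

end Pool.Agent.Helper63.Pak
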