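import Pool.Agent.Helper91.Pak.GSF
import Pool.Agent.Helper33.Pak.RAOmega
import Pool.Agent.Helper33.Pak.Towers

/-! Lattes piece, part 1: orders of rational functions. -/

namespace Pool.Agent.Helper63.Pak

open IntermediateField Polynomial

namespace LPiece

variable {Ω : Type} [Field Ω] [Algebra ℂ Ω]

theorem eval₂_ne_zero {y : Ω} (hy : Transcendental ℂ y) {P : ℂ[X]} (hP : P ≠ 0) :
    P.eval₂ (algebraMap ℂ Ω) y ≠ 0 := by
  intro h
  exact hy ⟨P, hP, h⟩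

theorem ev_mul' {y : Ω} (hy : Transcendental ℂ y) (P Q : RatFunc ℂ) :
    ev (P * Q) y = ev P y * ev Q y :=
  RatFunc.eval_mul (algebraMap ℂ Ω) y (eval₂_ne_zero hy P.denom_ne_zero) (eval₂_ne_zero hy Q.denom_ne_zero)

theorem ev_algebraMap' (P : ℂ[X]) (y : Ω) :
    ev (algebraMap ℂ[X] (RatFunc ℂ) P) y = P.eval₂ (algebraMap ℂ Ω) y := by
  rw [ev, RatFunc.eval_algebraMap]
  simp

theorem ev_C' (c : ℂ) (y : Ω) : ev (RatFunc.C c) y = algebraMap ℂ Ω c := by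
  rw [ev, RatFunc.eval_C]

theorem ev_one' (y : Ω) : ev (1 : RatFunc ℂ) y = 1 := by
  rw [ev, RatFunc.eval_one]

theorem ev_pow' {y : Ω} (hy : Transcendental ℂ y) (P : RatFunc ℂ) (n : ℕ) :
    ev (P ^ n) y = ev P y ^ n := by
  induction n with
  | zero => rw [pow_zero, pow_zero, ev_one']
  | succ n ih => rw [pow_succ, pow_succ, ev_mul' hy, ih]

theorem ev_ne_zero {y : Ω} (hy : Transcendental ℂ y) {P : RatFunc ℂ} (hP : P ≠ 0) :
    ev P y ≠ 0 := by
  intro h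
  have h1 : ev (P * P⁻¹) y = 0 := by rw [ev_mul' hy, h, zero_mul]
  rw [mul_inv_cancel₀ hP, ev_one'] at h1
  exact one_ne_zero h1

variable [CurveUniverse Ω]

variable (Ω) in
theorem exists_trans : ∃ t : Ω, Transcendental ℂ t := by
  have h : Algebra.trdeg ℂ Ω ≠ 0 := by
    rw [CurveUniverse.trdeg_eq (Ω := Ω)]
    exact one_ne_zero
  have h2 := trdeg_ne_zero_iff.1 h
  obtain ⟨t, ht⟩ := h2
  exact ⟨t, ht⟩

theorem exists_pt_val (hPT : PTFacts Ω) (p : OnePoint ℂ) :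
    ∃ (y : Ω) (v : Pt Ω), Transcendental ℂ y ∧ val v y = p := by
  obtain ⟨y, hy⟩ := exists_trans Ω
  obtain ⟨v, hv⟩ := hPT.exists_val hy p
  exact ⟨y, v, hy, hv⟩

theorem ordQ_mul (hPT : PTFacts Ω) {P Q : RatFunc ℂ} (hP : P ≠ 0) (hQ : Q ≠ 0) (p : OnePoint ℂ) :
    ordQ (P * Q) p = ordQ P p + ordQ Q p := by
  obtain ⟨y, v, hy, hv⟩ := exists_pt_val hPT p
  rw [← hv, ← hPT.ordAt_ev v _ hy (mul_ne_zero hP hQ), ← hPT.ordAt_ev v _ hy hP,
    ← hPT.ordAt_ev v _ hy hQ, ev_mul' hy]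
  have hm : y ∈ ℂ⟮y⟯ := mem_adjoin_simple_self ℂ y
  exact hPT.ordAt_mul v (ff_adjoin hy) (ev_mem hm) (ev_mem hm) (ev_ne_zero hy hP) (ev_ne_zero hy hQ)

theorem ordQ_C (hPT : PTFacts Ω) {c : ℂ} (hc : c ≠ 0) (p : OnePoint ℂ) :
    ordQ (RatFunc.C c) p = 0 := by
  obtain ⟨y, v, hy, hv⟩ := exists_pt_val hPT p
  have hc' : RatFunc.C c ≠ 0 := by
    simpa using hc
  rw [← hv, ← hPT.ordAt_ev v _ hy hc', ev_C', ordAt, hPT.val_algebraMap]
  rw [if_neg, if_neg]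
  · exact OnePoint.coe_ne_infty c
  · intro h
    exact hc (OnePoint.coe_injective h)

theorem ordQ_one (hPT : PTFacts Ω) (p : OnePoint ℂ) : ordQ (1 : RatFunc ℂ) p = 0 := by
  have := ordQ_C hPT one_ne_zero p
  rwa [map_one] at this

theorem ordQ_inv (hPT : PTFacts Ω) {P : RatFunc ℂ} (hP : P ≠ 0) (p : OnePoint ℂ) :
    ordQ P⁻¹ p = -ordQ P p := by
  have h := ordQ_mul hPT hP (inv_ne_zero hP) p
  rw [mul_inv_cancel₀ hP, ordQ_one hPT] at h
  linarith

theorem ordQ_pow (hPT : PTFacts Ω) {P : RatFunc ℂ} (hP : P ≠ 0) (p : OnePoint ℂ) (n : ℕ) :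
    ordQ (P ^ n) p = n * ordQ P p := by
  induction n with
  | zero => rw [pow_zero, ordQ_one hPT]; simp
  | succ n ih =>
    rw [pow_succ, ordQ_mul hPT (pow_ne_zero n hP) hP, ih]
    push_cast
    ring

theorem ordQ_prod (hPT : PTFacts Ω) {ι : Type*} (s : Finset ι) (P : ι → RatFunc ℂ)
    (hP : ∀ i ∈ s, P i ≠ 0) (p : OnePoint ℂ) :
    ordQ (∏ i ∈ s, P i) p = ∑ i ∈ s, ordQ (P i) p := by
  classical
  induction s using Finset.induction_on with
  | empty => simpa using ordQ_one hPT p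
  | insert a s ha ih =>
    rw [Finset.prod_insert ha, Finset.sum_insert ha, ordQ_mul hPT, ih]
    · intro i hi
      exact hP i (Finset.mem_insert_of_mem hi)
    · exact hP a (Finset.mem_insert_self a s)
    · exact Finset.prod_ne_zero_iff.2 fun i hi => hP i (Finset.mem_insert_of_mem hi)

/-- `X - c` -/
noncomputable abbrev lin (c : ℂ) : RatFunc ℂ := algebraMap ℂ[X] (RatFunc ℂ) (X - C c)

theorem lin_ne_zero (c : ℂ) : lin c ≠ 0 := by
  rw [lin, ne_eq, FaithfulSMul.algebraMap_eq_zero_iff]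
  exact X_sub_C_ne_zero c

theorem num_lin (c : ℂ) : (lin c).num = X - C c := by
  rw [lin, RatFunc.num_algebraMap]

theorem denom_lin (c : ℂ) : (lin c).denom = 1 := by
  rw [lin, RatFunc.denom_algebraMap]

theorem rdeg_lin (c : ℂ) : rdeg (lin c) = 1 := by
  rw [rdeg, num_lin, denom_lin]
  simp

theorem pmap_lin_coe (c z : ℂ) : pmap (lin c) (z : OnePoint ℂ) = ((z - c : ℂ) : OnePoint ℂ) := by
  change (open Classical in if (lin c).denom.eval z = 0 then OnePoint.infty else (((lin c).num.eval z / (lin c).denom.eval z : ℂ) : OnePoint ℂ)) = _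
  rw [denom_lin, num_lin]
  simp

theorem pmap_lin_infty (c : ℂ) : pmap (lin c) OnePoint.infty = OnePoint.infty := by
  change (open Classical in if (lin c).denom.coeff (rdeg (lin c)) = 0 then OnePoint.infty
      else (((lin c).num.coeff (rdeg (lin c)) / (lin c).denom.coeff (rdeg (lin c)) : ℂ) : OnePoint ℂ)) = _
  rw [denom_lin, num_lin, rdeg_lin]
  simp [coeff_one]

theorem locDeg_lin_infty (c : ℂ) : locDeg (lin c) OnePoint.infty = 1 := by
  change rdeg (lin c) - (fibPoly (lin c) (pmap (lin c) OnePoint.infty)).natDegree = 1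
  rw [pmap_lin_infty, rdeg_lin]
  change 1 - ((lin c).denom).natDegree = 1
  rw [denom_lin]
  simp

theorem locDeg_lin_self (c : ℂ) : locDeg (lin c) (c : OnePoint ℂ) = 1 := by
  change (fibPoly (lin c) (pmap (lin c) (c : OnePoint ℂ))).rootMultiplicity c = 1
  rw [pmap_lin_coe]
  change ((lin c).num - C (c - c) * (lin c).denom).rootMultiplicity c = 1
  rw [denom_lin, num_lin]
  simp [rootMultiplicity_X_sub_C_self]

theorem ordQ_lin_infty (c : ℂ) : ordQ (lin c) OnePoint.infty = -1 := by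
  rw [ordQ, pmap_lin_infty, if_neg (OnePoint.infty_ne_coe _), if_pos rfl, locDeg_lin_infty]
  simp

theorem ordQ_lin_self (c : ℂ) : ordQ (lin c) (c : OnePoint ℂ) = 1 := by
  rw [ordQ, pmap_lin_coe, if_pos (by rw [sub_self]), locDeg_lin_self]
  simp

theorem ordQ_lin_ne {c z : ℂ} (h : z ≠ c) : ordQ (lin c) (z : OnePoint ℂ) = 0 := by
  rw [ordQ, pmap_lin_coe, if_neg, if_neg]
  · exact OnePoint.coe_ne_infty _
  · intro h'
    exact sub_ne_zero.2 h (OnePoint.coe_injective h')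

theorem ordQ_comp (hPT : PTFacts Ω) {A H : RatFunc ℂ} (hA : 1 ≤ rdeg A) (hH : H ≠ 0)
    (q : OnePoint ℂ) (hc : comp H A ≠ 0) :
    ordQ (comp H A) q = locDeg A q * ordQ H (pmap A q) := by
  obtain ⟨y, v, hy, hv⟩ := exists_pt_val hPT q
  have hy' := transcendental_ev hy hA
  have hm : y ∈ ℂ⟮y⟯ := mem_adjoin_simple_self ℂ y
  have hm' : ev A y ∈ ℂ⟮ev A y⟯ := mem_adjoin_simple_self ℂ _
  have hle : ℂ⟮ev A y⟯ ≤ ℂ⟮y⟯ := adjoin_simple_le_iff.2 (ev_mem hm)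
  rw [← hv, ← hPT.ordAt_ev v _ hy hc, ev_comp hy hA,
    hPT.ordAt_eq v (ff_adjoin hy') (ff_adjoin hy) hle (ev_mem hm') (ev_ne_zero hy' hH),
    hPT.e_ev v A hy hA, hPT.ordAt_ev v H hy' hH, hPT.val_ev v A hy]

theorem comp_ne_zero' {A H : RatFunc ℂ} (hA : 1 ≤ rdeg A) (hH : H ≠ 0) : comp H A ≠ 0 := by
  intro h
  have hX : Transcendental ℂ (RatFunc.X : RatFunc ℂ) := RatFunc.transcendental_X
  have h1 : ev (comp H A) (RatFunc.X : RatFunc ℂ) = ev H (ev A (RatFunc.X : RatFunc ℂ)) :=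
    ev_comp hX hA
  rw [h] at h1
  have h2 : ev (0 : RatFunc ℂ) (RatFunc.X : RatFunc ℂ) = 0 := by
    rw [ev]; exact RatFunc.eval_zero _ _
  rw [h2] at h1
  exact ev_ne_zero (transcendental_ev hX hA) hH h1.symm

end LPiece

end Pool.Agent.Helper63.Pak
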