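import Pool.Agent.Helper30.Pak.L1

/-! Lattes piece, part 2: `l`-th powers. -/

namespace Pool.Agent.Helper63.Pak

open IntermediateField Polynomial

namespace LPiece

/-- a polynomial all of whose root multiplicities are divisible by `l` is a constant times an
`l`-th power -/
theorem poly_pow {P : ℂ[X]} (hP : P ≠ 0) {l : ℕ} (h : ∀ r, l ∣ P.rootMultiplicity r) :
    ∃ c : ℂ, c ≠ 0 ∧ ∃ S : ℂ[X], S ≠ 0 ∧ P = C c * S ^ l := by
  classical
  have hsp : P.Splits := IsAlgClosed.splits P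
  refine ⟨P.leadingCoeff, leadingCoeff_ne_zero.2 hP,
    ∏ r ∈ P.roots.toFinset, (X - C r) ^ (P.rootMultiplicity r / l), ?_, ?_⟩
  · exact Finset.prod_ne_zero_iff.2 fun r _ => pow_ne_zero _ (X_sub_C_ne_zero r)
  · conv_lhs => rw [hsp.eq_prod_roots]
    congr 1
    rw [Finset.prod_multiset_map_count, ← Finset.prod_pow]
    refine Finset.prod_congr rfl fun r _ => ?_
    rw [count_roots, ← pow_mul, Nat.div_mul_cancel (h r)]

variable {Ω : Type} [Field Ω] [Algebra ℂ Ω] [CurveUniverse Ω]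

theorem algebraMap_ne {P : ℂ[X]} (hP : P ≠ 0) : algebraMap ℂ[X] (RatFunc ℂ) P ≠ 0 := by
  rw [ne_eq, FaithfulSMul.algebraMap_eq_zero_iff]
  exact hP

theorem ordQ_poly (hPT : PTFacts Ω) {P : ℂ[X]} (hP : P ≠ 0) (z : ℂ) :
    ordQ (algebraMap ℂ[X] (RatFunc ℂ) P) (z : OnePoint ℂ) = P.rootMultiplicity z := by
  classical
  have hsp : P.Splits := IsAlgClosed.splits P
  have h1 : algebraMap ℂ[X] (RatFunc ℂ) P = RatFunc.C P.leadingCoeff *
      ∏ r ∈ P.roots.toFinset, (lin r) ^ (P.rootMultiplicity r) := by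
    conv_lhs => rw [hsp.eq_prod_roots]
    rw [Finset.prod_multiset_map_count, map_mul, map_prod]
    congr 1
    refine Finset.prod_congr rfl fun r _ => ?_
    rw [map_pow, count_roots]
  have hlc : (RatFunc.C P.leadingCoeff : RatFunc ℂ) ≠ 0 := by
    simpa using hP
  rw [h1, ordQ_mul hPT hlc, ordQ_C hPT (leadingCoeff_ne_zero.2 hP), ordQ_prod hPT, zero_add]
  · have h2 : ∀ r ∈ P.roots.toFinset, ordQ (lin r ^ P.rootMultiplicity r) (z : OnePoint ℂ) =
        if r = z then (P.rootMultiplicity z : ℤ) else 0 := by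
      intro r _
      rw [ordQ_pow hPT (lin_ne_zero r)]
      split_ifs with hr
      · rw [hr, ordQ_lin_self]; simp
      · rw [ordQ_lin_ne (Ne.symm hr)]; simp
    rw [Finset.sum_congr rfl h2, Finset.sum_ite_eq']
    split_ifs with hz
    · rfl
    · rw [Multiset.mem_toFinset, mem_roots hP] at hz
      rw [rootMultiplicity_eq_zero hz]; rfl
  · intro r _
    exact pow_ne_zero _ (lin_ne_zero r)
  · exact Finset.prod_ne_zero_iff.2 fun r _ => pow_ne_zero _ (lin_ne_zero r)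

/-- `l`-th power criterion -/
theorem ratFunc_pow (hPT : PTFacts Ω) {f : RatFunc ℂ} (hf : f ≠ 0) {l : ℕ}
    (h : ∀ z : ℂ, (l : ℤ) ∣ ordQ f (z : OnePoint ℂ)) :
    ∃ c : ℂ, c ≠ 0 ∧ ∃ S : RatFunc ℂ, S ≠ 0 ∧ f = RatFunc.C c * S ^ l := by
  have hn : f.num ≠ 0 := RatFunc.num_ne_zero hf
  have hd : f.denom ≠ 0 := f.denom_ne_zero
  have hq : f = algebraMap ℂ[X] (RatFunc ℂ) f.num * (algebraMap ℂ[X] (RatFunc ℂ) f.denom)⁻¹ := by
    rw [← div_eq_mul_inv]
    exact (RatFunc.num_div_denom f).symm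
  have hord : ∀ z : ℂ, ordQ f (z : OnePoint ℂ) =
      (f.num.rootMultiplicity z : ℤ) - f.denom.rootMultiplicity z := by
    intro z
    conv_lhs => rw [hq]
    rw [ordQ_mul hPT (algebraMap_ne hn) (inv_ne_zero (algebraMap_ne hd)),
      ordQ_inv hPT (algebraMap_ne hd), ordQ_poly hPT hn, ordQ_poly hPT hd]
    ring
  have hcop : ∀ z : ℂ, f.num.rootMultiplicity z = 0 ∨ f.denom.rootMultiplicity z = 0 := by
    intro z
    by_contra hcon
    push Not at hcon
    have h1 : IsRoot f.num z := (rootMultiplicity_pos hn).1 (Nat.pos_of_ne_zero hcon.1)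
    have h2 : IsRoot f.denom z := (rootMultiplicity_pos hd).1 (Nat.pos_of_ne_zero hcon.2)
    obtain ⟨a, b, hab⟩ := f.isCoprime_num_denom
    have h3 := congrArg (eval z) hab
    rw [eval_add, eval_mul, eval_mul, h1.eq_zero, h2.eq_zero] at h3
    simp at h3
  have hnl : ∀ z, l ∣ f.num.rootMultiplicity z := by
    intro z
    rcases hcop z with h0 | h0
    · rw [h0]; exact dvd_zero _
    · have := h z
      rw [hord z, h0] at this
      simpa using Int.natCast_dvd_natCast.1 (by simpa using this)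
  have hdl : ∀ z, l ∣ f.denom.rootMultiplicity z := by
    intro z
    rcases hcop z with h0 | h0
    · have := h z
      rw [hord z, h0] at this
      exact Int.natCast_dvd_natCast.1 (by simpa using this)
    · rw [h0]; exact dvd_zero _
  obtain ⟨c1, hc1, S1, hS1, h1⟩ := poly_pow hn hnl
  obtain ⟨c2, hc2, S2, hS2, h2⟩ := poly_pow hd hdl
  refine ⟨c1 / c2, div_ne_zero hc1 hc2,
    algebraMap ℂ[X] (RatFunc ℂ) S1 / algebraMap ℂ[X] (RatFunc ℂ) S2,
    div_ne_zero (algebraMap_ne hS1) (algebraMap_ne hS2), ?_⟩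
  have e1 : algebraMap ℂ[X] (RatFunc ℂ) f.num =
      RatFunc.C c1 * (algebraMap ℂ[X] (RatFunc ℂ) S1) ^ l := by
    conv_lhs => rw [h1]
    rw [map_mul, map_pow]; rfl
  have e2 : algebraMap ℂ[X] (RatFunc ℂ) f.denom =
      RatFunc.C c2 * (algebraMap ℂ[X] (RatFunc ℂ) S2) ^ l := by
    conv_lhs => rw [h2]
    rw [map_mul, map_pow]; rfl
  have hc2' : (RatFunc.C c2 : RatFunc ℂ) ≠ 0 := by simpa using hc2
  have hS2' := algebraMap_ne hS2
  conv_lhs => rw [hq]
  rw [e1, e2, map_div₀, div_pow]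
  field_simp

end LPiece

end Pool.Agent.Helper63.Pak
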