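import Pool.Agent.Helper30.Pak.L2

/-! Lattes piece, part 3: ramification of the cyclic extension. -/

namespace Pool.Agent.Helper63.Pak

open IntermediateField Polynomial

namespace LPiece

variable {Ω : Type} [Field Ω] [Algebra ℂ Ω]

/-! ### valuations -/

theorem valuation_const (v : Pt Ω) {c : ℂ} (hc : c ≠ 0) :
    v.ring.valuation (algebraMap ℂ Ω c) = 1 := by
  apply le_antisymm
  · exact (v.ring.valuation_le_one_iff _).2 (v.const_mem c)
  · have h := (v.ring.valuation_le_one_iff _).2 (v.const_mem c⁻¹)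
    rw [map_inv₀, map_inv₀] at h
    have h0 : v.ring.valuation (algebraMap ℂ Ω c) ≠ 0 := by
      rw [ne_eq, map_eq_zero, map_eq_zero]; exact hc
    rwa [inv_le_one₀ (zero_lt_iff.2 h0)] at h

/-- roots of unity are constants -/
theorem root_const {z : Ω} {l : ℕ} (hl : 0 < l) (hz : z ^ l = 1) :
    ∃ c : ℂ, c ^ l = 1 ∧ z = algebraMap ℂ Ω c := by
  have hsp : (X ^ l - C 1 : ℂ[X]).Splits := IsAlgClosed.splits _
  have h0 : aeval z (X ^ l - C 1 : ℂ[X]) = 0 := by simp [hz]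
  have hm : (X ^ l - C 1 : ℂ[X]) ≠ 0 := X_pow_sub_C_ne_zero hl 1
  rw [hsp.eq_prod_roots, map_mul, mul_eq_zero] at h0
  rcases h0 with h0 | h0
  · exfalso
    rw [aeval_C, map_eq_zero, leadingCoeff_eq_zero] at h0
    exact hm h0
  · rw [map_multiset_prod, Multiset.prod_eq_zero_iff, Multiset.map_map, Multiset.mem_map] at h0
    obtain ⟨r, hr, hr0⟩ := h0
    rw [mem_roots hm] at hr
    refine ⟨r, ?_, ?_⟩
    · have := hr.eq_zero
      simp only [eval_sub, eval_pow, eval_X, eval_C] at this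
      exact sub_eq_zero.1 this
    · simp only [Function.comp_apply, map_sub, aeval_X, aeval_C] at hr0
      exact sub_eq_zero.1 hr0

theorem valuation_sub_const (v : Pt Ω) {t : Ω} {p c : ℂ}
    (hp : v.ring.valuation (t - algebraMap ℂ Ω p) < 1) (hc : p ≠ c) :
    v.ring.valuation (t - algebraMap ℂ Ω c) = 1 := by
  have h1 : t - algebraMap ℂ Ω c = (t - algebraMap ℂ Ω p) + algebraMap ℂ Ω (p - c) := by
    rw [map_sub]; ring
  have h2 := valuation_const v (sub_ne_zero.2 hc)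
  rw [h1, Valuation.map_add_eq_of_lt_right, h2]
  rw [h2]; exact hp

theorem valuation_sub_const_infty (v : Pt Ω) {t : Ω} (ht : t ∉ v.ring) (c : ℂ) :
    v.ring.valuation (t - algebraMap ℂ Ω c) = v.ring.valuation t := by
  have h1 : 1 < v.ring.valuation t := by
    rw [← not_le, v.ring.valuation_le_one_iff]; exact ht
  rw [sub_eq_add_neg, Valuation.map_add_eq_of_lt_left]
  rw [Valuation.map_neg]
  exact lt_of_le_of_lt ((v.ring.valuation_le_one_iff _).2 (v.const_mem c)) h1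

/-- the fixed field of one automorphism -/
def fixF (g : Ω ≃ₐ[ℂ] Ω) : IntermediateField ℂ Ω where
  carrier := {z | g z = z}
  mul_mem' {a b} ha hb := by
    change g (a * b) = a * b
    rw [map_mul, show g a = a from ha, show g b = b from hb]
  add_mem' {a b} ha hb := by
    change g (a + b) = a + b
    rw [map_add, show g a = a from ha, show g b = b from hb]
  algebraMap_mem' c := g.commutes c
  inv_mem' a ha := by
    change g a⁻¹ = a⁻¹
    rw [map_inv₀, show g a = a from ha]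

theorem fixes_sup {g : Ω ≃ₐ[ℂ] Ω} {K K' : IntermediateField ℂ Ω} (h : Fixes g K)
    (h' : Fixes g K') : Fixes g (K ⊔ K') := by
  have h1 : K ⊔ K' ≤ fixF g := sup_le (fun z hz => h z hz) (fun z hz => h' z hz)
  exact fun z hz => h1 hz

theorem fixes_adjoin {g : Ω ≃ₐ[ℂ] Ω} {η : Ω} (h : g η = η) : Fixes g ℂ⟮η⟯ := by
  have h1 : ℂ⟮η⟯ ≤ fixF g := adjoin_simple_le_iff.2 h
  exact fun z hz => h1 hz

/-- **upper bound** for the ramification index of a Kummer extension -/
theorem e_le [CurveUniverse Ω] (hPT : PTFacts Ω) (v : Pt Ω) {K : IntermediateField ℂ Ω} {η π : Ω} {l n : ℕ}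
    (hl : 0 < l) (hn : 0 < n) (hη : η ≠ 0) (hηK : η ^ l ∈ K) (hπK : π ∈ K) (hπ : π ≠ 0)
    (hval : v.ring.valuation (η ^ n) = v.ring.valuation π) :
    e v K (K ⊔ ℂ⟮η⟯) ≤ n := by
  classical
  -- the character
  have hconst : ∀ g : stab v K, ∃ c : ℂ, c ^ l = 1 ∧ (g : Ω ≃ₐ[ℂ] Ω) η / η = algebraMap ℂ Ω c := by
    intro g
    apply root_const hl
    rw [div_pow, ← map_pow, (mem_stab.1 g.2).1 _ hηK, div_self (pow_ne_zero l hη)]
  have hg : ∀ g : stab v K, ∃ c : ℂ, (g : Ω ≃ₐ[ℂ] Ω) η = algebraMap ℂ Ω c * η ∧ c ^ n = 1 := by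
    intro g
    obtain ⟨c, hc1, hc2⟩ := hconst g
    have hgη : (g : Ω ≃ₐ[ℂ] Ω) η = algebraMap ℂ Ω c * η := by
      rw [← hc2, div_mul_cancel₀ _ hη]
    refine ⟨c, hgη, ?_⟩
    have hc0 : c ≠ 0 := by
      rintro rfl
      rw [zero_pow hl.ne'] at hc1
      exact zero_ne_one hc1
    -- the unit `w`
    set w : Ω := η ^ n / π with hw
    have hw1 : v.ring.valuation w = 1 := by
      rw [hw, map_div₀, hval, div_self]
      rw [ne_eq, map_eq_zero]; exact hπ
    have hwr : w ∈ v.ring := (v.ring.valuation_le_one_iff _).1 hw1.le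
    have hwi := (hPT.mem_ring_iff v w).1 hwr
    obtain ⟨b, hb⟩ := OnePoint.ne_infty_iff_exists.1 hwi
    have hb1 : v.ring.valuation (w - algebraMap ℂ Ω b) < 1 := (hPT.val_eq_coe_iff v w b).1 hb.symm
    have hb0 : b ≠ 0 := by
      rintro rfl
      rw [map_zero, sub_zero, hw1] at hb1
      exact lt_irrefl _ hb1
    have hgw : (g : Ω ≃ₐ[ℂ] Ω) w = algebraMap ℂ Ω (c ^ n) * w := by
      rw [hw, map_div₀, map_pow, hgη, (mem_stab.1 g.2).1 _ hπK, mul_pow, map_pow, mul_div_assoc]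
    have h1 : val v ((g : Ω ≃ₐ[ℂ] Ω) w) = (b : OnePoint ℂ) := by
      have h2 := hPT.val_smul (g : Ω ≃ₐ[ℂ] Ω) v w
      rw [(mem_stab.1 g.2).2] at h2
      rw [h2, ← hb]
    have h3 : val v ((g : Ω ≃ₐ[ℂ] Ω) w) = ((c ^ n * b : ℂ) : OnePoint ℂ) := by
      rw [hPT.val_eq_coe_iff, hgw, map_mul (algebraMap ℂ Ω) (c ^ n) b, ← mul_sub, map_mul,
        valuation_const v (pow_ne_zero n hc0), one_mul]
      exact hb1
    rw [h1] at h3
    have h4 := OnePoint.coe_injective h3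
    exact mul_right_cancel₀ hb0 (by rw [← h4, one_mul])
  -- the homomorphism
  let χ : stab v K →* Ωˣ :=
    { toFun := fun g => Units.mk0 ((g : Ω ≃ₐ[ℂ] Ω) η / η)
        (div_ne_zero (by rw [ne_eq, EmbeddingLike.map_eq_zero_iff]; exact hη) hη)
      map_one' := by
        ext; simp [hη]
      map_mul' := by
        intro g h
        ext
        simp only [Units.val_mk0, Units.val_mul, Subgroup.coe_mul, AlgEquiv.mul_apply]
        obtain ⟨c, hc, _⟩ := hg h
        obtain ⟨c', hc', _⟩ := hg g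
        rw [hc, map_mul, AlgEquiv.commutes, hc']
        field_simp }
  have hker : χ.ker = (stab v (K ⊔ ℂ⟮η⟯)).subgroupOf (stab v K) := by
    ext g
    rw [MonoidHom.mem_ker, Subgroup.mem_subgroupOf, mem_stab]
    have h1 : χ g = 1 ↔ (g : Ω ≃ₐ[ℂ] Ω) η = η := by
      rw [Units.ext_iff]
      change (g : Ω ≃ₐ[ℂ] Ω) η / η = 1 ↔ _
      rw [div_eq_one_iff_eq hη]
    rw [h1]
    constructor
    · intro hgη
      refine ⟨?_, (mem_stab.1 g.2).2⟩
      exact fixes_sup (mem_stab.1 g.2).1 (fixes_adjoin hgη)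
    · intro h
      exact h.1 η ((le_sup_right : ℂ⟮η⟯ ≤ K ⊔ ℂ⟮η⟯) (mem_adjoin_simple_self ℂ η))
  have hidx : e v K (K ⊔ ℂ⟮η⟯) = Nat.card χ.range := by
    rw [e, Subgroup.relIndex, ← hker, Subgroup.index_ker]
  rw [hidx]
  have hle : χ.range ≤ rootsOfUnity n Ω := by
    rintro u ⟨g, rfl⟩
    rw [mem_rootsOfUnity]
    ext
    obtain ⟨c, hc, hcn⟩ := hg g
    have h1 : ((χ g : Ωˣ) : Ω) = algebraMap ℂ Ω c := by
      change (g : Ω ≃ₐ[ℂ] Ω) η / η = _
      rw [hc, mul_div_cancel_right₀ _ hη]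
    rw [Units.val_pow_eq_pow_val, h1, ← map_pow, hcn, map_one, Units.val_one]
  have : NeZero n := ⟨hn.ne'⟩
  have hfin : Finite (rootsOfUnity n Ω) := inferInstance
  calc Nat.card χ.range ≤ Nat.card (rootsOfUnity n Ω) := Nat.card_mono hfin hle
    _ ≤ n := card_rootsOfUnity Ω n

end LPiece

end Pool.Agent.Helper63.Pak
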