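import Pool.Agent.Helper30.Pak.L3

/-! Lattes piece, part 4: the cyclic cover with orbifold `nu`. -/

namespace Pool.Agent.Helper63.Pak

open IntermediateField Polynomial

namespace LPiece

/-- combinatorial data of a parabolic orbifold -/
structure PData (nu : OnePoint ℂ → ℕ) (l : ℕ) (Sf : Finset ℂ) : Prop where
  pos : ∀ q, 0 < nu q
  lpos : 0 < l
  dvd : ∀ q, nu q ∣ l
  mem : ∀ c : ℂ, c ∈ Sf ↔ nu (c : OnePoint ℂ) ≠ 1
  sum : ∑ c ∈ Sf, (l - l / nu (c : OnePoint ℂ)) = l + l / nu OnePoint.infty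

/-- the polynomial `∏ (X - c)^(l - l / nu c)` -/
noncomputable def HP (nu : OnePoint ℂ → ℕ) (l : ℕ) (Sf : Finset ℂ) : ℂ[X] :=
  ∏ c ∈ Sf, (X - C c) ^ (l - l / nu (c : OnePoint ℂ))

variable {nu : OnePoint ℂ → ℕ} {l : ℕ} {Sf : Finset ℂ}

theorem HP_ne_zero : HP nu l Sf ≠ 0 :=
  Finset.prod_ne_zero_iff.2 fun c _ => pow_ne_zero _ (X_sub_C_ne_zero c)

variable {Ω : Type} [Field Ω] [Algebra ℂ Ω]

theorem eval₂_HP (t : Ω) : (HP nu l Sf).eval₂ (algebraMap ℂ Ω) t =
    ∏ c ∈ Sf, (t - algebraMap ℂ Ω c) ^ (l - l / nu (c : OnePoint ℂ)) := by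
  rw [HP, eval₂_finsetProd]
  refine Finset.prod_congr rfl fun c _ => ?_
  simp [eval₂_pow, eval₂_sub]

theorem PData.exp_eq (D : PData nu l Sf) (q : OnePoint ℂ) :
    l - l / nu q = (nu q - 1) * (l / nu q) := by
  obtain ⟨k, hk⟩ := D.dvd q
  have hq := D.pos q
  rw [hk, Nat.mul_div_cancel_left _ hq, Nat.sub_mul, one_mul]

variable [CurveUniverse Ω]

theorem PData.ordQ_coe (D : PData nu l Sf) (hPT : PTFacts Ω) (p : ℂ) :
    ordQ (algebraMap ℂ[X] (RatFunc ℂ) (HP nu l Sf)) (p : OnePoint ℂ) =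
      ((l - l / nu (p : OnePoint ℂ) : ℕ) : ℤ) := by
  classical
  rw [HP, map_prod, ordQ_prod hPT]
  · have h2 : ∀ c ∈ Sf, ordQ (algebraMap ℂ[X] (RatFunc ℂ) ((X - C c) ^ (l - l / nu (c : OnePoint ℂ))))
        (p : OnePoint ℂ) = if c = p then ((l - l / nu (p : OnePoint ℂ) : ℕ) : ℤ) else 0 := by
      intro c _
      rw [map_pow]
      change ordQ (lin c ^ _) _ = _
      rw [ordQ_pow hPT (lin_ne_zero c)]
      split_ifs with hr
      · rw [hr, ordQ_lin_self]; simp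
      · rw [ordQ_lin_ne (Ne.symm hr)]; simp
    rw [Finset.sum_congr rfl h2, Finset.sum_ite_eq']
    split_ifs with hp
    · rfl
    · rw [D.mem, not_not] at hp
      rw [hp]; simp
  · intro c _
    rw [map_pow]
    exact pow_ne_zero _ (lin_ne_zero c)

theorem PData.ordQ_infty (D : PData nu l Sf) (hPT : PTFacts Ω) :
    ordQ (algebraMap ℂ[X] (RatFunc ℂ) (HP nu l Sf)) OnePoint.infty =
      -((l + l / nu OnePoint.infty : ℕ) : ℤ) := by
  classical
  rw [HP, map_prod, ordQ_prod hPT, ← D.sum]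
  · rw [Nat.cast_sum, ← Finset.sum_neg_distrib]
    refine Finset.sum_congr rfl fun c _ => ?_
    rw [map_pow]
    change ordQ (lin c ^ _) _ = _
    rw [ordQ_pow hPT (lin_ne_zero c), ordQ_lin_infty]
    ring
  · intro c _
    rw [map_pow]
    exact pow_ne_zero _ (lin_ne_zero c)

/-- the ramification of the Kummer extension -/
theorem PData.e_eq (D : PData nu l Sf) (hPT : PTFacts Ω) {t η : Ω} (ht : Transcendental ℂ t)
    (hη : η ^ l = (HP nu l Sf).eval₂ (algebraMap ℂ Ω) t) (v : Pt Ω) :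
    e v ℂ⟮t⟯ (ℂ⟮t⟯ ⊔ ℂ⟮η⟯) = nu (val v t) := by
  have hH0 : (HP nu l Sf).eval₂ (algebraMap ℂ Ω) t ≠ 0 := eval₂_ne_zero ht HP_ne_zero
  have hη0 : η ≠ 0 := by
    rintro rfl
    rw [zero_pow D.lpos.ne'] at hη
    exact hH0 hη.symm
  have htK : t ∈ ℂ⟮t⟯ := mem_adjoin_simple_self ℂ t
  have hcK : ∀ c : ℂ, algebraMap ℂ Ω c ∈ ℂ⟮t⟯ := fun c => ℂ⟮t⟯.algebraMap_mem c
  have hev : ev (algebraMap ℂ[X] (RatFunc ℂ) (HP nu l Sf)) t =
      (HP nu l Sf).eval₂ (algebraMap ℂ Ω) t := ev_algebraMap' _ t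
  have hHK : η ^ l ∈ ℂ⟮t⟯ := by
    rw [hη, ← hev]
    exact ev_mem htK
  have hK : FF ℂ⟮t⟯ := ff_adjoin ht
  have hE : FF (ℂ⟮t⟯ ⊔ ℂ⟮η⟯) := hK.sup_adjoin η
  have hle : ℂ⟮t⟯ ≤ ℂ⟮t⟯ ⊔ ℂ⟮η⟯ := le_sup_left
  have hηE : η ∈ ℂ⟮t⟯ ⊔ ℂ⟮η⟯ := (le_sup_right : ℂ⟮η⟯ ≤ _) (mem_adjoin_simple_self ℂ η)
  set E := ℂ⟮t⟯ ⊔ ℂ⟮η⟯ with hEdef
  set q := val v t with hq
  set k := l / nu q with hk
  have hnk : l = nu q * k := by
    rw [hk, Nat.mul_div_cancel' (D.dvd q)]
  have hkpos : 0 < k := by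
    rcases Nat.eq_zero_or_pos k with h | h
    · rw [h, mul_zero] at hnk
      exact absurd hnk D.lpos.ne'
    · exact h
  have hepos := hPT.e_pos v hK hE hle
  -- lower bound
  have hordpow : ∀ n : ℕ, ordAt v E (η ^ (n + 1)) = ((n + 1 : ℕ) : ℤ) * ordAt v E η := by
    intro n
    induction n with
    | zero => simp
    | succ n ih =>
      rw [pow_succ, hPT.ordAt_mul v hE (pow_mem hηE _) hηE (pow_ne_zero _ hη0) hη0, ih]
      push_cast; ring
  have hord : (l : ℤ) * ordAt v E η = (e v ℂ⟮t⟯ E : ℤ) *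
      ordQ (algebraMap ℂ[X] (RatFunc ℂ) (HP nu l Sf)) q := by
    have h1 := hordpow (l - 1)
    rw [Nat.sub_add_cancel D.lpos] at h1
    rw [← h1, hPT.ordAt_eq v hK hE hle hHK (pow_ne_zero _ hη0), hη, ← hev,
      hPT.ordAt_ev v _ ht (algebraMap_ne HP_ne_zero)]
  have hdvd : nu q ∣ e v ℂ⟮t⟯ E := by
    have hkz : (k : ℤ) ≠ 0 := by exact_mod_cast hkpos.ne'
    have h2 : (nu q : ℤ) ∣ (e v ℂ⟮t⟯ E : ℤ) := by
      rcases hqi : q with _ | p
      · -- infinity
        have hqi' : q = OnePoint.infty := hqi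
        change (nu OnePoint.infty : ℤ) ∣ _
        rw [← hqi']
        rw [hqi', D.ordQ_infty hPT, ← hqi', ← hk] at hord
        have h3 : (nu q : ℤ) * ordAt v E η = -((e v ℂ⟮t⟯ E : ℤ) * (nu q + 1)) := by
          apply mul_left_cancel₀ hkz
          have h4 : (l : ℤ) = nu q * k := by exact_mod_cast hnk
          push_cast at hord
          rw [h4] at hord
          linear_combination hord
        refine ⟨-(ordAt v E η) - e v ℂ⟮t⟯ E, ?_⟩
        linear_combination h3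
      · have hqi' : q = (p : OnePoint ℂ) := hqi
        change (nu (p : OnePoint ℂ) : ℤ) ∣ _
        rw [← hqi']
        rw [hqi', D.ordQ_coe hPT, ← hqi', D.exp_eq q, ← hk] at hord
        have h3 : (nu q : ℤ) * ordAt v E η = ((e v ℂ⟮t⟯ E : ℤ) * (nu q - 1)) := by
          apply mul_left_cancel₀ hkz
          have h4 : (l : ℤ) = nu q * k := by exact_mod_cast hnk
          rw [Nat.cast_mul, Nat.cast_sub (D.pos q), h4] at hord
          push_cast at hord
          linear_combination hord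
        refine ⟨e v ℂ⟮t⟯ E - ordAt v E η, ?_⟩
        linear_combination h3
    exact_mod_cast h2
  -- upper bound
  have hupper : e v ℂ⟮t⟯ E ≤ nu q := by
    have hpow : ∀ {a b : Ω}, v.ring.valuation (a ^ k) = v.ring.valuation (b ^ k) →
        v.ring.valuation a = v.ring.valuation b := by
      intro a b hab
      rw [map_pow, map_pow] at hab
      exact (pow_left_inj₀ zero_le zero_le hkpos.ne').1 hab
    have hηk : (η ^ nu q) ^ k = (HP nu l Sf).eval₂ (algebraMap ℂ Ω) t := by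
      rw [← pow_mul, ← hnk, hη]
    rcases hqi : q with _ | p
    · have hqi' : q = OnePoint.infty := hqi
      change _ ≤ nu OnePoint.infty
      rw [← hqi']
      have htr : t ∉ v.ring := by
        rw [hPT.mem_ring_iff, not_not, ← hq]; exact hqi'
      have ht0 : t ≠ 0 := fun h => htr (h ▸ zero_mem _)
      refine e_le hPT v D.lpos (D.pos q) hη0 hHK (π := t ^ (nu q + 1)) (pow_mem htK _)
        (pow_ne_zero _ ht0) (hpow ?_)
      rw [hηk, eval₂_HP, map_prod]
      have h5 : ∀ c ∈ Sf, v.ring.valuation ((t - algebraMap ℂ Ω c) ^ (l - l / nu (c : OnePoint ℂ))) =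
          v.ring.valuation t ^ (l - l / nu (c : OnePoint ℂ)) := by
        intro c _
        rw [map_pow, valuation_sub_const_infty v htr]
      rw [Finset.prod_congr rfl h5, Finset.prod_pow_eq_pow_sum, D.sum, ← map_pow, ← hqi', ← hk,
        ← pow_mul, add_mul, one_mul, ← hnk]
    · have hqi' : q = (p : OnePoint ℂ) := hqi
      change _ ≤ nu (p : OnePoint ℂ)
      rw [← hqi']
      have hvp : v.ring.valuation (t - algebraMap ℂ Ω p) < 1 := by
        rw [← hPT.val_eq_coe_iff, ← hq]; exact hqi'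
      have hp0 : t - algebraMap ℂ Ω p ≠ 0 := by
        intro h0
        apply ht
        rw [sub_eq_zero.1 h0]
        exact isAlgebraic_algebraMap p
      refine e_le hPT v D.lpos (D.pos q) hη0 hHK (π := (t - algebraMap ℂ Ω p) ^ (nu q - 1))
        (pow_mem (sub_mem htK (hcK p)) _) (pow_ne_zero _ hp0) (hpow ?_)
      rw [hηk, eval₂_HP, map_prod]
      classical
      have h5 : ∀ c ∈ Sf, v.ring.valuation ((t - algebraMap ℂ Ω c) ^ (l - l / nu (c : OnePoint ℂ))) =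
          if c = p then v.ring.valuation ((t - algebraMap ℂ Ω p) ^ (l - l / nu q)) else 1 := by
        intro c _
        split_ifs with hcp
        · rw [hcp, ← hqi']
        · rw [map_pow, valuation_sub_const v hvp (Ne.symm hcp), one_pow]
      rw [Finset.prod_congr rfl h5, Finset.prod_ite_eq']
      split_ifs with hpS
      · rw [D.exp_eq q, ← pow_mul]
      · rw [D.mem, not_not, ← hqi'] at hpS
        rw [hpS]; simp
  exact le_antisymm hupper (Nat.le_of_dvd hepos hdvd)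

end LPiece

end Pool.Agent.Helper63.Pak
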