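import Pool.Agent.Helper30.Pak.L4

/-! Lattes piece, part 5: Euler characteristic of the cyclic cover. -/

namespace Pool.Agent.Helper63.Pak

open IntermediateField Polynomial

namespace LPiece

variable {nu : OnePoint ℂ → ℕ} {l : ℕ} {Sf : Finset ℂ}
variable {Ω : Type} [Field Ω] [Algebra ℂ Ω] [CurveUniverse Ω]

/-- counting along the fibres of a map -/
theorem finsum_fiber {α β : Type*} (φ : α → β) (nu : β → ℕ) (n : ℕ) (hpos : ∀ q, 0 < nu q)
    (hfin : {q | nu q ≠ 1}.Finite)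
    (hfib : ∀ q, {a | φ a = q}.Finite ∧ {a | φ a = q}.ncard * nu q = n) :
    ((∑ᶠ a, (nu (φ a) - 1) : ℕ) : ℚ) = n * ∑ᶠ q, (1 - 1 / (nu q : ℚ)) := by
  classical
  obtain ⟨T, hT⟩ : ∃ T : Finset β, ∀ q, q ∈ T ↔ nu q ≠ 1 :=
    ⟨hfin.toFinset, fun q => hfin.mem_toFinset⟩
  have hWf : {a | φ a ∈ T}.Finite := by
    have : {a | φ a ∈ T} = ⋃ q ∈ T, {a | φ a = q} := by
      ext P; simp
    rw [this]
    exact Set.Finite.biUnion T.finite_toSet fun q _ => (hfib q).1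
  obtain ⟨W, hW⟩ : ∃ W : Finset α, ∀ a, a ∈ W ↔ φ a ∈ T :=
    ⟨hWf.toFinset, fun a => hWf.mem_toFinset⟩
  have h1 : ∑ᶠ a, (nu (φ a) - 1) = ∑ a ∈ W, (nu (φ a) - 1) := by
    apply finsum_eq_sum_of_support_subset
    intro a ha
    rw [Function.mem_support] at ha
    rw [Finset.mem_coe, hW, hT]
    intro h
    rw [h] at ha
    exact ha rfl
  have h2 : ∑ a ∈ W, (nu (φ a) - 1) = ∑ q ∈ T, ∑ a ∈ W with φ a = q, (nu (φ a) - 1) :=
    (Finset.sum_fiberwise_of_maps_to (fun a ha => (hW a).1 ha) _).symm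
  have h4 : ∀ q ∈ T, ∑ a ∈ W with φ a = q, (nu (φ a) - 1) = {a | φ a = q}.ncard * (nu q - 1) := by
    intro q hq
    have hf : {a | φ a = q}.Finite := (hfib q).1
    have hc : (W.filter (fun a => φ a = q)) = hf.toFinset := by
      ext a
      rw [Finset.mem_filter, hW, hf.mem_toFinset]
      exact ⟨fun h => h.2, fun h => ⟨(show φ a = q from h).symm ▸ hq, h⟩⟩
    rw [hc, Finset.sum_congr rfl (g := fun _ => nu q - 1), Finset.sum_const, smul_eq_mul,
      Set.ncard_eq_toFinset_card _ hf]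
    intro a ha
    rw [(show φ a = q from hf.mem_toFinset.1 ha)]
  have h3 : ∀ q ∈ T, (({a | φ a = q}.ncard * (nu q - 1) : ℕ) : ℚ) =
      n * (1 - 1 / (nu q : ℚ)) := by
    intro q _
    have hq0 : (nu q : ℚ) ≠ 0 := by exact_mod_cast (hpos q).ne'
    rw [← (hfib q).2, Nat.cast_mul, Nat.cast_sub (hpos q)]
    push_cast
    field_simp
  have h5 : ∑ᶠ q, (1 - 1 / (nu q : ℚ)) = ∑ q ∈ T, (1 - 1 / (nu q : ℚ)) := by
    apply finsum_eq_sum_of_support_subset
    intro q hq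
    rw [Finset.mem_coe, hT]
    intro h
    rw [Function.mem_support, h] at hq
    exact hq (by norm_num)
  rw [h1, h2, Finset.sum_congr rfl h4, Nat.cast_sum, Finset.sum_congr rfl h3, ← Finset.mul_sum, h5]

/-- Euler characteristic of an extension of `ℂ(t)` with given orbifold -/
theorem chi_eq_zero_of_orbifold (hPT : PTFacts Ω) {t : Ω} (ht : Transcendental ℂ t)
    {E : IntermediateField ℂ Ω} (hE : FF E) (hle : ℂ⟮t⟯ ≤ E) (hpos : ∀ q, 0 < nu q)
    (hfin : {q | nu q ≠ 1}.Finite) (hchi : ∑ᶠ q, (1 - 1 / (nu q : ℚ)) = 2)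
    (he : ∀ v : Pt Ω, e v ℂ⟮t⟯ E = nu (val v t)) : chi E = 0 := by
  have hK : FF ℂ⟮t⟯ := ff_adjoin ht
  have htK : t ∈ ℂ⟮t⟯ := mem_adjoin_simple_self ℂ t
  obtain ⟨n, hn⟩ : ∃ n, n = ℂ⟮t⟯.relfinrank E := ⟨_, rfl⟩
  have hfib : ∀ q : OnePoint ℂ, {P : Pl E | val P.pt t = q}.Finite ∧
      {P : Pl E | val P.pt t = q}.ncard * nu q = n := by
    intro q
    obtain ⟨v, hv⟩ := hPT.exists_val ht q
    have hset : {P : Pl E | SameOn ℂ⟮t⟯ P.pt v} = {P : Pl E | val P.pt t = q} := by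
      ext P
      simp only [Set.mem_ofPred_eq]
      constructor
      · intro h
        rw [hPT.val_eq_of_sameOn h htK, hv]
      · intro h
        exact hPT.sameOn_adjoin ht (by rw [h, hv])
    have hf := hPT.finite_over v hK hE hle
    have hs := hPT.sum_e v hK hE hle
    rw [hset] at hf hs
    refine ⟨hf, ?_⟩
    rw [← hn] at hs
    rw [← hs, finsum_mem_eq_finite_toFinset_sum _ hf, Finset.sum_congr rfl (g := fun _ => nu q),
      Finset.sum_const, smul_eq_mul, Set.ncard_eq_toFinset_card _ hf]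
    intro P hP
    rw [he, (hf.mem_toFinset.1 hP : val P.pt t = q)]
  have hRam : (Ram ℂ⟮t⟯ E : ℚ) = 2 * n := by
    have h1 : Ram ℂ⟮t⟯ E = ∑ᶠ P : Pl E, (nu (val P.pt t) - 1) := by
      rw [Ram]
      exact finsum_congr fun P => by rw [he]
    rw [h1, finsum_fiber (fun P : Pl E => val P.pt t) nu n hpos hfin hfib, hchi]
    ring
  have h6 := hPT.chi_eq hK hE hle
  rw [hPT.chi_adjoin ht, ← hn] at h6
  have h7 : (Ram ℂ⟮t⟯ E : ℤ) = 2 * n := by exact_mod_cast hRam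
  rw [h6, h7]; ring

variable {A : RatFunc ℂ}

/-- `H ∘ A = c S^l H` -/
theorem PData.exists_pow (D : PData nu l Sf) (hPT : PTFacts Ω) (hA : 1 ≤ rdeg A)
    (hcov : ∀ q, locDeg A q * nu q = nu (pmap A q)) :
    ∃ c : ℂ, c ≠ 0 ∧ ∃ S : RatFunc ℂ, S ≠ 0 ∧
      comp (algebraMap ℂ[X] (RatFunc ℂ) (HP nu l Sf)) A =
        RatFunc.C c * S ^ l * algebraMap ℂ[X] (RatFunc ℂ) (HP nu l Sf) := by
  set H := algebraMap ℂ[X] (RatFunc ℂ) (HP nu l Sf) with hH
  have hH0 : H ≠ 0 := algebraMap_ne HP_ne_zero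
  have hc0 : comp H A ≠ 0 := comp_ne_zero' hA hH0
  obtain ⟨c, hc, S, hS, h⟩ := ratFunc_pow hPT (f := comp H A * H⁻¹)
    (mul_ne_zero hc0 (inv_ne_zero hH0)) (l := l) (by
      intro z
      rw [ordQ_mul hPT hc0 (inv_ne_zero hH0), ordQ_inv hPT hH0, ordQ_comp hPT hA hH0 _ hc0,
        hH, D.ordQ_coe hPT]
      have hz := hcov (z : OnePoint ℂ)
      set e₀ := locDeg A (z : OnePoint ℂ) with he₀
      set m := nu (z : OnePoint ℂ) with hm
      have hmp : 0 < m := D.pos _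
      obtain ⟨k, hk⟩ := D.dvd (pmap A (z : OnePoint ℂ))
      rw [← hz] at hk
      -- `l = e m k`
      have hlm : l / m = e₀ * k := by
        rw [hk, mul_comm e₀ m, mul_assoc, Nat.mul_div_cancel_left _ hmp]
      have he0 : 0 < e₀ * m := by
        rcases Nat.eq_zero_or_pos (e₀ * m) with h0 | h0
        · rw [h0, zero_mul] at hk
          exact absurd hk D.lpos.ne'
        · exact h0
      have hle' : ∀ a : ℕ, l / a ≤ l := fun a => Nat.div_le_self _ _
      rcases hpi : pmap A (z : OnePoint ℂ) with _ | p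
      · have hpi' : pmap A (z : OnePoint ℂ) = OnePoint.infty := hpi
        change (l : ℤ) ∣ (e₀ : ℤ) * ordQ H OnePoint.infty + _
        rw [hH, D.ordQ_infty hPT, ← hpi', ← hz]
        have hl2 : l / (e₀ * m) = k := by rw [hk, Nat.mul_div_cancel_left _ he0]
        have hb1 : e₀ * k ≤ l := hlm ▸ hle' m
        rw [hl2, hlm, Nat.cast_sub hb1]
        refine ⟨-(e₀ : ℤ) - 1, ?_⟩
        push_cast
        ring
      · have hpi' : pmap A (z : OnePoint ℂ) = (p : OnePoint ℂ) := hpi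
        change (l : ℤ) ∣ (e₀ : ℤ) * ordQ H (p : OnePoint ℂ) + _
        rw [hH, D.ordQ_coe hPT, ← hpi', ← hz]
        have hl2 : l / (e₀ * m) = k := by rw [hk, Nat.mul_div_cancel_left _ he0]
        have hb1 : e₀ * k ≤ l := hlm ▸ hle' m
        have hb2 : k ≤ l := hl2 ▸ hle' (e₀ * m)
        rw [hl2, hlm, Nat.cast_sub hb1, Nat.cast_sub hb2]
        refine ⟨(e₀ : ℤ) - 1, ?_⟩
        push_cast
        ring)
  refine ⟨c, hc, S, hS, ?_⟩
  rw [← h, mul_assoc, inv_mul_cancel₀ hH0, mul_one]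

end LPiece

end Pool.Agent.Helper63.Pak
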