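import Pool.Agent.Helper30.Pak.L5
import Pool.Agent.Helper99.Pak.LWDefs

/-! MP_005844_an, piece L (Lattes), part 6: the radical extension (LW-C, first half). -/

namespace Pool.Agent.Helper63.Pak

open IntermediateField Polynomial LPiece

variable {Ω : Type} [Field Ω] [Algebra ℂ Ω] [CurveUniverse Ω]
variable {A B : RatFunc ℂ}

theorem LPiece.exists_PData_of_dvd (nu : OnePoint ℂ → ℕ) (hpos : ∀ q, 0 < nu q)
    (hfin : {q | nu q ≠ 1}.Finite) (hchi : ∑ᶠ q, (1 - 1 / (nu q : ℚ)) = 2) {l : ℕ}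
    (hlpos : 0 < l) (hdvd : ∀ q, nu q ∣ l) :
    ∃ Sf, PData nu l Sf := by
  classical
  have hf' : {c : ℂ | nu (c : OnePoint ℂ) ≠ 1}.Finite :=
    Set.Finite.preimage OnePoint.coe_injective.injOn hfin
  refine ⟨hf'.toFinset, hpos, hlpos, hdvd, fun c => hf'.mem_toFinset, ?_⟩
  -- the sum
  have h1 : ∑ᶠ q, (1 - 1 / (nu q : ℚ)) = ∑ q ∈ insert OnePoint.infty
      (hf'.toFinset.map ⟨((↑) : ℂ → OnePoint ℂ), OnePoint.coe_injective⟩),
      (1 - 1 / (nu q : ℚ)) := by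
    apply finsum_eq_sum_of_support_subset
    intro q hq
    rw [Finset.mem_coe, Finset.mem_insert, Finset.mem_map]
    rcases hqi : q with _ | c
    · left; rfl
    · right
      refine ⟨c, hf'.mem_toFinset.2 ?_, rfl⟩
      intro h
      apply hq
      rw [hqi]
      change 1 - 1 / (nu (c : OnePoint ℂ) : ℚ) = 0
      rw [(show nu (c : OnePoint ℂ) = 1 from h)]
      norm_num
  rw [Finset.sum_insert (by
    rw [Finset.mem_map]
    rintro ⟨c, _, hc⟩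
    exact OnePoint.coe_ne_infty c hc), Finset.sum_map, hchi] at h1
  have hlq : (l : ℚ) ≠ 0 := by exact_mod_cast hlpos.ne'
  have hdiv : ∀ q, ((l / nu q : ℕ) : ℚ) = l / nu q := fun q => by
    rw [Nat.cast_div (hdvd q)]
    exact_mod_cast (hpos q).ne'
  have h2 : ((∑ c ∈ hf'.toFinset, (l - l / nu (c : OnePoint ℂ)) : ℕ) : ℚ) =
      l * ∑ c ∈ hf'.toFinset, (1 - 1 / (nu (c : OnePoint ℂ) : ℚ)) := by
    rw [Nat.cast_sum, Finset.mul_sum]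
    refine Finset.sum_congr rfl fun c _ => ?_
    rw [Nat.cast_sub (Nat.div_le_self _ _), hdiv]
    ring
  have h3 : ((∑ c ∈ hf'.toFinset, (l - l / nu (c : OnePoint ℂ)) : ℕ) : ℚ) =
      ((l + l / nu OnePoint.infty : ℕ) : ℚ) := by
    rw [h2, Nat.cast_add, hdiv]
    have h4 : ∑ c ∈ hf'.toFinset, (1 - 1 / (nu (c : OnePoint ℂ) : ℚ)) =
        2 - (1 - 1 / (nu OnePoint.infty : ℚ)) := by
      rw [h1]
      simp only [Function.Embedding.coeFn_mk]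
      ring
    rw [h4]; ring
  exact_mod_cast h3

theorem LPiece.exists_PData (nu : OnePoint ℂ → ℕ) (hpos : ∀ q, 0 < nu q)
    (hfin : {q | nu q ≠ 1}.Finite) (hchi : ∑ᶠ q, (1 - 1 / (nu q : ℚ)) = 2) :
    ∃ l Sf, PData nu l Sf := by
  classical
  set l := ∏ q ∈ hfin.toFinset, nu q with hl
  have hlpos : 0 < l := Finset.prod_pos fun q _ => hpos q
  have hdvd : ∀ q, nu q ∣ l := by
    intro q
    by_cases hq : nu q = 1
    · rw [hq]; exact one_dvd _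
    · exact Finset.dvd_prod_of_mem _ (hfin.mem_toFinset.2 hq)
  obtain ⟨Sf, h⟩ := LPiece.exists_PData_of_dvd nu hpos hfin hchi hlpos hdvd
  exact ⟨l, Sf, h⟩

theorem LPiece.radical (hPT : PTFacts Ω) (hA : 2 ≤ rdeg A) {nu : OnePoint ℂ → ℕ} {l : ℕ}
    {Sf : Finset ℂ} (D : PData nu l Sf)
    (hcov : ∀ q, locDeg A q * nu q = nu (pmap A q)) {z : Ω} (hz : Transcendental ℂ z) :
    ∃ (η : Ω) (g : Ω ≃ₐ[ℂ] Ω), η ≠ 0 ∧ η ^ l = (HP nu l Sf).eval₂ (algebraMap ℂ Ω) z ∧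
      g z = ev A z ∧ mapF g (ℂ⟮z⟯ ⊔ ℂ⟮η⟯) ≤ ℂ⟮z⟯ ⊔ ℂ⟮η⟯ := by
  have hA1 : 1 ≤ rdeg A := le_trans (by norm_num) hA
  obtain ⟨x, hx, hxz⟩ := exists_tower hA1 hz
  obtain ⟨σ, hσ⟩ := exists_shift hA1 hx
  obtain ⟨c, hc, S, hS, hcS⟩ := D.exists_pow hPT hA1 hcov
  have hx0 : ev A z = x (-1) := by
    have := hx.step (-1)
    rw [show (-1 : ℤ) + 1 = 0 by norm_num, hxz] at this
    exact this
  have hσz : σ (x (-1)) = z := by
    rw [hσ (-1), show (-1 : ℤ) + 1 = 0 by norm_num, hxz]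
  have halg : IsAlgClosed Ω := CurveUniverse.isAlgClosed
  obtain ⟨η, hη⟩ := IsAlgClosed.exists_pow_nat_eq
    ((HP nu l Sf).eval₂ (algebraMap ℂ Ω) z) D.lpos
  obtain ⟨d, hd⟩ := IsAlgClosed.exists_pow_nat_eq c D.lpos
  have hH0 : (HP nu l Sf).eval₂ (algebraMap ℂ Ω) z ≠ 0 := eval₂_ne_zero hz HP_ne_zero
  have hη0 : η ≠ 0 := by
    rintro rfl
    rw [zero_pow D.lpos.ne'] at hη
    exact hH0 hη.symm
  set H := algebraMap ℂ[X] (RatFunc ℂ) (HP nu l Sf) with hH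
  have hevH : ev H z = η ^ l := by rw [hη, hH, ev_algebraMap']
  set η₀ : Ω := algebraMap ℂ Ω d * ev S z * η with hη₀
  have hη₀l : η₀ ^ l = ev H (x (-1)) := by
    rw [← hx0, ← ev_comp hz hA1, hcS, ev_mul' hz, ev_mul' hz, ev_C', ev_pow' hz, hevH, hη₀,
      mul_pow, mul_pow, ← map_pow, hd]
  have hση : (σ η₀ / η) ^ l = 1 := by
    rw [div_pow, ← map_pow, hη₀l, ev_map, hσz, hevH, div_self (pow_ne_zero l hη0)]
  obtain ⟨ζ, hζl, hζ⟩ := root_const D.lpos hση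
  have hζ0 : ζ ≠ 0 := by
    rintro rfl
    rw [zero_pow D.lpos.ne'] at hζl
    exact zero_ne_one hζl
  have hση' : σ η₀ = algebraMap ℂ Ω ζ * η := by rw [← hζ, div_mul_cancel₀ _ hη0]
  have hgη : σ.symm η = algebraMap ℂ Ω ζ⁻¹ * η₀ := by
    rw [AlgEquiv.symm_apply_eq, map_mul, AlgEquiv.commutes, hση', ← mul_assoc, ← map_mul,
      inv_mul_cancel₀ hζ0, map_one, one_mul]
  have hgx : σ.symm z = x (-1) := by
    rw [AlgEquiv.symm_apply_eq, hσz]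
  set E := ℂ⟮z⟯ ⊔ ℂ⟮η⟯ with hE
  have hx1E : z ∈ E := (le_sup_left : ℂ⟮z⟯ ≤ E) (mem_adjoin_simple_self ℂ _)
  have hηE : η ∈ E := (le_sup_right : ℂ⟮η⟯ ≤ E) (mem_adjoin_simple_self ℂ _)
  have hx0E : x (-1) ∈ E := by rw [← hx0]; exact ev_mem hx1E
  refine ⟨η, σ.symm, hη0, hη, by rw [hgx, hx0], ?_⟩
  rw [mapF, IntermediateField.map_le_iff_le_comap]
  refine sup_le (adjoin_simple_le_iff.2 ?_) (adjoin_simple_le_iff.2 ?_)
  · change σ.symm z ∈ E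
    rw [hgx]; exact hx0E
  · change σ.symm η ∈ E
    rw [hgη]
    exact mul_mem (E.algebraMap_mem _) (mul_mem (mul_mem (E.algebraMap_mem _) (ev_mem hx1E)) hηE)

/-- the rational function `∏ (X - p) ^ (-l (1 - 1 / nu p))` over the finite points -/
noncomputable def hFun (l : ℕ) (nu : OnePoint ℂ → ℕ) : RatFunc ℂ :=
  ∏ᶠ p : ℂ, (RatFunc.X - RatFunc.C p) ^ (-((l - l / nu (p : OnePoint ℂ) : ℕ) : ℤ))

theorem LPiece.PData.hFun_eq {nu : OnePoint ℂ → ℕ} {l : ℕ} {Sf : Finset ℂ} (D : PData nu l Sf) :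
    hFun l nu = (algebraMap ℂ[X] (RatFunc ℂ) (HP nu l Sf))⁻¹ := by
  classical
  have h1 : hFun l nu = ∏ p ∈ Sf,
      (RatFunc.X - RatFunc.C p) ^ (-((l - l / nu (p : OnePoint ℂ) : ℕ) : ℤ)) := by
    rw [hFun]
    apply finprod_eq_prod_of_mulSupport_subset
    intro p hp
    rw [Finset.mem_coe, D.mem]
    intro h
    apply hp
    change (RatFunc.X - RatFunc.C p) ^ (-((l - l / nu (p : OnePoint ℂ) : ℕ) : ℤ)) = 1
    rw [h]
    simp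
  rw [h1, HP, map_prod, ← Finset.prod_inv_distrib]
  refine Finset.prod_congr rfl fun p _ => ?_
  rw [zpow_neg, zpow_natCast, map_pow]
  congr 2
  simp

theorem exists_radical (hPT : PTFacts Ω) (hA : 2 ≤ rdeg A) (nu : OnePoint ℂ → ℕ)
    (hpos : ∀ q, 0 < nu q) (hfin : {q | nu q ≠ 1}.Finite)
    (hchi : ∑ᶠ q, (1 - 1 / (nu q : ℚ)) = 2)
    (hcov : ∀ q, locDeg A q * nu q = nu (pmap A q)) {l : ℕ} (hl : 0 < l)
    (hdvd : ∀ q, nu q ∣ l) {x : Ω} (hx : Transcendental ℂ x) :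
    ∃ (η : Ω) (g : Ω ≃ₐ[ℂ] Ω), η ^ l = ev (hFun l nu) x ∧ g x = ev A x ∧
      mapF g (ℂ⟮x⟯ ⊔ ℂ⟮η⟯) ≤ ℂ⟮x⟯ ⊔ ℂ⟮η⟯ := by
  obtain ⟨Sf, D⟩ := LPiece.exists_PData_of_dvd nu hpos hfin hchi hl hdvd
  obtain ⟨η, g, hη0, hη, hgx, hgE⟩ := LPiece.radical hPT hA D hcov hx
  have hinv : ℂ⟮η⁻¹⟯ = ℂ⟮η⟯ := by
    apply le_antisymm
    · exact adjoin_simple_le_iff.2 (inv_mem (mem_adjoin_simple_self ℂ η))
    · refine adjoin_simple_le_iff.2 ?_
      have := inv_mem (mem_adjoin_simple_self ℂ η⁻¹)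
      rwa [inv_inv] at this
  refine ⟨η⁻¹, g, ?_, hgx, ?_⟩
  · have hH : algebraMap ℂ[X] (RatFunc ℂ) (HP nu l Sf) ≠ 0 := algebraMap_ne HP_ne_zero
    have h2 : ev (algebraMap ℂ[X] (RatFunc ℂ) (HP nu l Sf)) x *
        ev (algebraMap ℂ[X] (RatFunc ℂ) (HP nu l Sf))⁻¹ x = 1 := by
      rw [← ev_mul' hx, mul_inv_cancel₀ hH, ev_one']
    rw [D.hFun_eq, inv_pow, hη, ← ev_algebraMap']
    exact inv_eq_of_mul_eq_one_right h2
  · rw [hinv]; exact hgE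

end Pool.Agent.Helper63.Pak
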